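import Pool.Agent.TH317.CC.Geo

/-!
# The polygon theorem (assembly), job CC-B1 of helper317
-/

set_option autoImplicit false
set_option linter.unusedVariables false
set_option linter.unusedSectionVars false

universe u

namespace Pool.Agent.TH317.CC

namespace H113B1

lemma rtg_mono {α : Type u} {r p : α → α → Prop} (h : ∀ a b, r a b → p a b) {a b : α}
    (hab : Relation.ReflTransGen r a b) : Relation.ReflTransGen p a b := by
  induction hab with
  | refl => exact Relation.ReflTransGen.refl
  | tail _ hbc ih => exact Relation.ReflTransGen.tail ih (h _ _ hbc)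

section Poly

variable {M : Type u} [MetricSpace M]

lemma chl_nonneg : ∀ l : List M, 0 ≤ chl l
  | [] => le_rfl
  | [_] => le_rfl
  | x :: y :: l => add_nonneg dist_nonneg (chl_nonneg (y :: l))

lemma chl_append (A : List M) (x : M) (B : List M) :
    chl (A ++ x :: B) = chl (A ++ [x]) + chl (x :: B) := by
  induction A with
  | nil =>
    show chl (x :: B) = 0 + chl (x :: B)
    ring
  | cons a A ih =>
    cases A with
    | nil =>
      show dist a x + chl (x :: B) = (dist a x + 0) + chl (x :: B)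
      ring
    | cons a' A =>
      show dist a a' + chl ((a' :: A) ++ x :: B) = (dist a a' + chl ((a' :: A) ++ [x])) + _
      rw [ih]
      ring

lemma good_rot {r ℓ : ℝ} {S : Set M} {x : M} {l : List M} (h : Good r ℓ S (x :: l)) :
    Good r ℓ S (l ++ [x]) := by
  obtain ⟨h1, h2, h3⟩ := h
  cases l with
  | nil => exact ⟨h1, h2, h3⟩
  | cons y l =>
    show Good r ℓ S (y :: (l ++ [x]))
    have h1' : List.IsChain (fun a b => dist a b ≤ r) (x :: y :: (l ++ [x])) := h1
    rw [List.isChain_cons_cons] at h1'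
    refine ⟨?_, ?_, ?_⟩
    · have e : y :: ((l ++ [x]) ++ [y]) = (y :: l) ++ [x, y] := by simp
      rw [e, List.isChain_append_cons_cons]
      refine ⟨?_, h1'.1, List.isChain_singleton _⟩
      have e2 : (y :: l) ++ [x] = y :: (l ++ [x]) := rfl
      rw [e2]
      exact h1'.2
    · have e : y :: ((l ++ [x]) ++ [y]) = (y :: l) ++ x :: [y] := by simp
      rw [e, chl_append]
      have h2' : dist x y + chl (y :: (l ++ [x])) < ℓ := h2
      have e2 : (y :: l) ++ [x] = y :: (l ++ [x]) := rfl
      rw [e2]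
      show chl (y :: (l ++ [x])) + (dist x y + 0) < ℓ
      linarith
    · intro z hz
      apply h3
      simp only [List.mem_cons, List.mem_append, List.not_mem_nil, or_false] at hz ⊢
      tauto

lemma good_mono {r ℓ r' ℓ' : ℝ} {S S' : Set M} (hr : r ≤ r') (hℓ : ℓ ≤ ℓ') (hS : S ⊆ S')
    {P : List M} (h : Good r ℓ S P) : Good r' ℓ' S' P := by
  cases P with
  | nil => exact h
  | cons x l =>
    obtain ⟨h1, h2, h3⟩ := h
    exact ⟨h1.imp (fun a b hab => hab.trans hr), lt_of_lt_of_le h2 hℓ, fun y hy => hS (h3 y hy)⟩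

lemma good_dup {r ℓ : ℝ} {S : Set M} {x : M} {l : List M} (hr : 0 ≤ r)
    (h : Good r ℓ S (x :: l)) : Good r ℓ S (x :: x :: l) := by
  obtain ⟨h1, h2, h3⟩ := h
  refine ⟨?_, ?_, ?_⟩
  · show List.IsChain _ (x :: x :: (l ++ [x]))
    rw [List.isChain_cons_cons]
    exact ⟨by rw [dist_self]; exact hr, h1⟩
  · show dist x x + chl (x :: (l ++ [x])) < ℓ
    rw [dist_self, zero_add]
    exact h2
  · intro y hy
    rw [List.mem_cons] at hy
    rcases hy with rfl | hy
    · exact h3 _ List.mem_cons_self
    · exact h3 y hy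

lemma chain_close {β ρ : ℝ} {Q P : List M} (h : List.Forall₂ (fun a b => dist a b ≤ ρ) Q P)
    (hc : List.IsChain (fun a b => dist a b ≤ β) Q) :
    List.IsChain (fun a b => dist a b ≤ β + 2 * ρ) P := by
  induction h with
  | nil => exact List.isChain_nil
  | @cons a b Q P hab hQP ih =>
    cases hQP with
    | nil => exact List.isChain_singleton _
    | @cons a' b' Q P hab' hQP =>
      rw [List.isChain_cons_cons] at hc ⊢
      refine ⟨?_, ih hc.2⟩
      have h1 := hc.1
      have h2 : dist b b' ≤ dist b a + dist a a' + dist a' b' := dist_triangle4 _ _ _ _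
      rw [dist_comm b a] at h2
      linarith

lemma chl_close {ρ : ℝ} (hρ : 0 ≤ ρ) {Q P : List M}
    (h : List.Forall₂ (fun a b => dist a b ≤ ρ) Q P) :
    ∀ a b, dist a b ≤ ρ → chl (b :: P) ≤ chl (a :: Q) + 2 * ρ * Q.length := by
  induction h with
  | nil =>
    intro a b _
    show (0:ℝ) ≤ 0 + 2 * ρ * ((0:ℕ):ℝ)
    simp
  | @cons a' b' Q P hab' hQP ih =>
    intro a b hab
    have h1 := ih a' b' hab'
    have h2 : dist b b' ≤ dist b a + dist a a' + dist a' b' := dist_triangle4 _ _ _ _
    rw [dist_comm b a] at h2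
    show dist b b' + chl (b' :: P) ≤ dist a a' + chl (a' :: Q) + 2 * ρ * ((Q.length + 1 : ℕ) : ℝ)
    push_cast
    linarith

lemma good_close {β ρ ℓ : ℝ} {K S' : Set M} (hρ : 0 ≤ ρ) {Q P : List M}
    (hQ : Good β ℓ K Q) (h : List.Forall₂ (fun a b => dist a b ≤ ρ) Q P) (hP : ∀ y ∈ P, y ∈ S') :
    Good (β + 2 * ρ) (ℓ + 2 * ρ * Q.length) S' P := by
  cases h with
  | nil => exact hQ
  | @cons a b Q P hab hQP =>
    obtain ⟨h1, h2, h3⟩ := hQ
    have h4 : List.Forall₂ (fun a b => dist a b ≤ ρ) (Q ++ [a]) (P ++ [b]) :=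
      List.rel_append hQP (List.Forall₂.cons hab List.Forall₂.nil)
    refine ⟨chain_close (List.Forall₂.cons hab h4) h1, ?_, hP⟩
    have h5 := chl_close hρ h4 a b hab
    have h6 : (Q ++ [a]).length = (a :: Q).length := by simp
    rw [h6] at h5
    linarith

/-- steps are symmetric -/
lemma pstep_symm {r ℓ : ℝ} {S : Set M} {P P' : List M} (h : PStep r ℓ S P P') :
    PStep r ℓ S P' P := ⟨h.2.1, h.1, h.2.2.symm⟩

lemma e_symm {r ℓ : ℝ} {S : Set M} {P P' : List M} (h : Relation.ReflTransGen (PStep r ℓ S) P P') :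
    Relation.ReflTransGen (PStep r ℓ S) P' P := by
  induction h with
  | refl => exact Relation.ReflTransGen.refl
  | tail _ h ih => exact Relation.ReflTransGen.head (pstep_symm h) ih

lemma e_rot {r ℓ : ℝ} {S : Set M} {x : M} {l : List M} (h : Good r ℓ S (x :: l)) :
    Relation.ReflTransGen (PStep r ℓ S) (x :: l) (l ++ [x]) :=
  Relation.ReflTransGen.single ⟨h, good_rot h, Or.inl (PMove.rot x l)⟩

/-- replacing the vertices by their images -/
lemma e_map {β ρ ℓ r ℓ' : ℝ} {K S' : Set M} (hβ : 0 ≤ β) (hρ : 0 ≤ ρ) (hr : β + 2 * ρ ≤ r)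
    (V : M → M) (hKS : K ⊆ S') (hV : ∀ x ∈ K, V x ∈ S' ∧ dist x (V x) ≤ ρ) (n : ℕ)
    (hℓ : ℓ + 2 * ρ * (n + 1) ≤ ℓ') :
    ∀ (A B B' : List M), Good β ℓ K (A ++ B) → (A ++ B).length ≤ n →
      List.Forall₂ (fun a b => b = a ∨ b = V a) B B' →
      Relation.ReflTransGen (PStep r ℓ' S') (A ++ B') (A.map V ++ B') := by
  have hKm : ∀ Q : List M, Good β ℓ K Q → ∀ y ∈ Q, y ∈ K := by
    intro Q hQ
    cases Q with
    | nil => exact hQ.elim
    | cons x l => exact hQ.2.2
  -- mixed polygons are good
  have mix : ∀ Q P : List M, Good β ℓ K Q → Q.length ≤ n + 1 →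
      List.Forall₂ (fun a b => b = a ∨ b = V a) Q P → Good r ℓ' S' P := by
    intro Q P hQ hn h
    have h1 : List.Forall₂ (fun a b => dist a b ≤ ρ) Q P ∧ ∀ y ∈ P, y ∈ S' := by
      have hK' := hKm Q hQ
      clear hQ hn
      induction h with
      | nil => exact ⟨List.Forall₂.nil, fun y hy => absurd hy List.not_mem_nil⟩
      | @cons a b Q P hab hQP ih =>
        have ha : a ∈ K := hK' a List.mem_cons_self
        obtain ⟨i1, i2⟩ := ih (fun y hy => hK' y (List.mem_cons_of_mem _ hy))
        refine ⟨List.Forall₂.cons ?_ i1, ?_⟩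
        · rcases hab with rfl | rfl
          · rw [dist_self]; exact hρ
          · exact (hV a ha).2
        · intro y hy
          rw [List.mem_cons] at hy
          rcases hy with rfl | hy
          · rcases hab with rfl | rfl
            · exact hKS ha
            · exact (hV a ha).1
          · exact i2 y hy
    refine good_mono hr ?_ (Set.Subset.refl _) (good_close hρ hQ h1.1 h1.2)
    have h2 : (Q.length : ℝ) ≤ n + 1 := by exact_mod_cast hn
    have h3 : 2 * ρ * (Q.length : ℝ) ≤ 2 * ρ * (n + 1) :=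
      mul_le_mul_of_nonneg_left h2 (by positivity)
    linarith
  -- replacing the head
  have head : ∀ (x : M) (N N' : List M), Good β ℓ K (x :: N) → (x :: N).length ≤ n →
      List.Forall₂ (fun a b => b = a ∨ b = V a) N N' →
      Relation.ReflTransGen (PStep r ℓ' S') (x :: N') (V x :: N') := by
    intro x N N' hG hn hN
    have hxx : ∀ b : M, (b = x ∨ b = V x) → Good r ℓ' S' (b :: N') := by
      intro b hb
      exact mix (x :: N) (b :: N') hG (by omega) (List.Forall₂.cons hb hN)
    rcases List.eq_nil_or_concat N' with h | ⟨T', z', h⟩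
    · -- one vertex
      subst h
      have hN0 : N = [] := List.forall₂_nil_right_iff.1 hN
      subst hN0
      have g1 : Good r ℓ' S' [x, V x] := by
        refine mix [x, x] _ (good_dup hβ hG) ?_ ?_
        · simp only [List.length_cons, List.length_nil] at hn ⊢
          omega
        · exact List.Forall₂.cons (Or.inl rfl) (List.Forall₂.cons (Or.inr rfl) List.Forall₂.nil)
      have g2 : Good r ℓ' S' [V x, x] := good_rot g1
      refine Relation.ReflTransGen.head (b := [x, V x]) ?_ ?_
      · exact ⟨hxx x (Or.inl rfl), g1, Or.inl (PMove.ins x (V x) [])⟩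
      refine Relation.ReflTransGen.head (b := [V x, x]) ?_ ?_
      · exact ⟨g1, g2, Or.inl (PMove.rot x [V x])⟩
      exact Relation.ReflTransGen.single
        ⟨g2, hxx (V x) (Or.inr rfl), Or.inr (PMove.ins (V x) x [])⟩
    · rw [List.concat_eq_append] at h
      subst h
      -- N = T ++ [z]
      obtain ⟨T, Z, hT, hZ, hNe⟩ : ∃ T Z, List.Forall₂ (fun a b => b = a ∨ b = V a) T T' ∧
          List.Forall₂ (fun a b => b = a ∨ b = V a) Z [z'] ∧ N = T ++ Z := by
        have h1 := List.forall₂_take_append N T' [z'] hN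
        have h2 := List.forall₂_drop_append N T' [z'] hN
        exact ⟨_, _, h1, h2, (List.take_append_drop _ _).symm⟩
      obtain ⟨z, Z', hz, hZ', rfl⟩ : ∃ z Z', (z' = z ∨ z' = V z) ∧
          List.Forall₂ (fun a b => b = a ∨ b = V a) Z' [] ∧ Z = z :: Z' := by
        rcases List.forall₂_cons_right_iff.1 hZ with ⟨z, Z', h1, h2, h3⟩
        exact ⟨z, Z', h1, h2, h3⟩
      have hZ0 : Z' = [] := List.forall₂_nil_right_iff.1 hZ'
      subst hZ0
      subst hNe
      -- base polygon z x T
      have hb1 : Good β ℓ K (x :: (T ++ [z])) := hG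
      have hb2 : Good β ℓ K ((x :: T) ++ [z]) := hb1
      have hb3 : Good β ℓ K (x :: (x :: (T ++ [z]))) := good_dup hβ hb1
      -- z' x T' , z' y x T', y x T' z', y T' z'
      have p0 : Good r ℓ' S' (x :: (T' ++ [z'])) := hxx x (Or.inl rfl)
      have p3 : Good r ℓ' S' (V x :: x :: (T' ++ [z'])) := by
        refine mix (x :: x :: (T ++ [z])) _ hb3 ?_ ?_
        · simp only [List.length_cons, List.length_append, List.length_nil] at hn ⊢
          omega
        · exact List.Forall₂.cons (Or.inr rfl) (List.Forall₂.cons (Or.inl rfl) hN)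
      have p4 : Good r ℓ' S' (V x :: (T' ++ [z'])) := hxx (V x) (Or.inr rfl)
      -- rotate backwards: a general fact
      have back : ∀ (l : List M) (c : M), Good r ℓ' S' (l ++ [c]) → Good r ℓ' S' (c :: l) := by
        intro l c h
        -- rotate the list `l ++ [c]` forward `l.length` times
        have : ∀ (l1 l2 : List M), Good r ℓ' S' (l1 ++ l2) → Good r ℓ' S' (l2 ++ l1) := by
          intro l1
          induction l1 with
          | nil => intro l2 h; simpa using h
          | cons a l1 ih =>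
            intro l2 h
            have h' : Good r ℓ' S' ((l1 ++ l2) ++ [a]) := good_rot h
            rw [List.append_assoc] at h'
            have h'' := ih (l2 ++ [a]) h'
            simpa using h''
        exact this l [c] h
      have q0 : Good r ℓ' S' (z' :: x :: T') := back (x :: T') z' p0
      have q1 : Good r ℓ' S' (z' :: V x :: x :: T') := back (V x :: x :: T') z' p3
      -- x T' z'  <-  z' x T' (rot)
      have s1 : PStep r ℓ' S' (x :: (T' ++ [z'])) (z' :: x :: T') :=
        ⟨p0, q0, Or.inr (PMove.rot z' (x :: T'))⟩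
      have s2 : PStep r ℓ' S' (z' :: x :: T') (z' :: V x :: x :: T') :=
        ⟨q0, q1, Or.inl (PMove.ins z' (V x) (x :: T'))⟩
      have s3 : PStep r ℓ' S' (z' :: V x :: x :: T') (V x :: x :: (T' ++ [z'])) :=
        ⟨q1, p3, Or.inl (PMove.rot z' (V x :: x :: T'))⟩
      have s4 : PStep r ℓ' S' (V x :: x :: (T' ++ [z'])) (V x :: (T' ++ [z'])) :=
        ⟨p3, p4, Or.inr (PMove.ins (V x) x (T' ++ [z']))⟩
      exact Relation.ReflTransGen.head s1 (Relation.ReflTransGen.head s2
        (Relation.ReflTransGen.head s3 (Relation.ReflTransGen.single s4)))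
  intro A
  induction A with
  | nil =>
    intro B B' _ _ _
    exact Relation.ReflTransGen.refl
  | cons x A ih =>
    intro B B' hG hn hB
    have hmixA : ∀ A : List M, List.Forall₂ (fun a b => b = a ∨ b = V a) A A := by
      intro A
      induction A with
      | nil => exact List.Forall₂.nil
      | cons a A ih => exact List.Forall₂.cons (Or.inl rfl) ih
    have hmixV : ∀ A : List M, List.Forall₂ (fun a b => b = a ∨ b = V a) A (A.map V) := by
      intro A
      induction A with
      | nil => exact List.Forall₂.nil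
      | cons a A ih => exact List.Forall₂.cons (Or.inr rfl) ih
    have hAB : List.Forall₂ (fun a b => b = a ∨ b = V a) (A ++ B) (A ++ B') :=
      List.rel_append (hmixA A) hB
    have hAB' : List.Forall₂ (fun a b => b = a ∨ b = V a) (A ++ B) (A.map V ++ B') :=
      List.rel_append (hmixV A) hB
    have h1 := head x (A ++ B) (A ++ B') hG hn hAB
    have hgood : Good r ℓ' S' (V x :: (A ++ B')) :=
      mix (x :: (A ++ B)) _ hG (by
        have : (x :: (A ++ B)).length ≤ n := hn
        omega) (List.Forall₂.cons (Or.inr rfl) hAB)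
    have h2 := e_rot hgood
    rw [List.append_assoc] at h2
    have hG' : Good β ℓ K (A ++ (B ++ [x])) := by
      have h : Good β ℓ K ((A ++ B) ++ [x]) := good_rot hG
      rwa [List.append_assoc] at h
    have hB' : List.Forall₂ (fun a b => b = a ∨ b = V a) (B ++ [x]) (B' ++ [V x]) :=
      List.rel_append hB (List.Forall₂.cons (Or.inr rfl) List.Forall₂.nil)
    have h3 := ih (B ++ [x]) (B' ++ [V x]) hG' (by
      simp only [List.length_append, List.length_cons, List.length_nil] at hn ⊢
      omega) hB'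
    have hgood' : Good r ℓ' S' (V x :: (A.map V ++ B')) :=
      mix (x :: (A ++ B)) _ hG (by
        have : (x :: (A ++ B)).length ≤ n := hn
        omega) (List.Forall₂.cons (Or.inr rfl) hAB')
    have h4 := e_symm (e_rot hgood')
    rw [List.append_assoc] at h4
    exact h1.trans (h2.trans (h3.trans h4))

/-- constant polygons contract -/
lemma contr_const {r ℓ : ℝ} {S : Set M} (hr : 0 ≤ r) (hℓ : 0 < ℓ) {c : M} (hc : c ∈ S) :
    ∀ m : ℕ, Relation.ReflTransGen (PStep r ℓ S) (c :: List.replicate m c) [c] := by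
  have good : ∀ m : ℕ, Good r ℓ S (c :: List.replicate m c) := by
    intro m
    induction m with
    | zero =>
      refine ⟨?_, ?_, ?_⟩
      · show List.IsChain _ [c, c]
        rw [List.isChain_cons_cons]
        exact ⟨by rw [dist_self]; exact hr, List.isChain_singleton _⟩
      · show dist c c + 0 < ℓ
        rw [dist_self]
        linarith
      · intro y hy
        simp at hy
        rw [hy]
        exact hc
    | succ m ih =>
      rw [List.replicate_succ]
      exact good_dup hr ih
  intro m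
  induction m with
  | zero => exact Relation.ReflTransGen.refl
  | succ m ih =>
    refine Relation.ReflTransGen.head (b := c :: List.replicate m c) ?_ ih
    refine ⟨good (m + 1), good m, Or.inr ?_⟩
    rw [List.replicate_succ]
    exact PMove.ins c c _

/-- bound of the number of vertices along a chain -/
lemma exists_bound {r ℓ : ℝ} {S : Set M} {P Q : List M}
    (h : Relation.ReflTransGen (PStep r ℓ S) P Q) :
    ∃ n, P.length ≤ n ∧ Relation.ReflTransGen (PStepN n r ℓ S) P Q := by
  induction h with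
  | refl => exact ⟨P.length, le_rfl, Relation.ReflTransGen.refl⟩
  | @tail b c hab hbc ih =>
    obtain ⟨n, hn, h⟩ := ih
    refine ⟨n + b.length + c.length, by omega, ?_⟩
    refine Relation.ReflTransGen.tail ?_ ⟨hbc, by omega, by omega⟩
    exact rtg_mono
      (fun a a' h => ⟨h.1, by have := h.2.1; omega, by have := h.2.2; omega⟩) h

end Poly

section Words

variable {M : Type u} [MetricSpace M] {D : Type u}

lemma chw_append (W : M → M → List D) (A : List M) (x : M) (B : List M) :
    chw W (A ++ x :: B) = chw W (A ++ [x]) ++ chw W (x :: B) := by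
  induction A with
  | nil =>
    show chw W (x :: B) = [] ++ chw W (x :: B)
    rfl
  | cons a A ih =>
    cases A with
    | nil =>
      show W a x ++ chw W (x :: B) = (W a x ++ []) ++ chw W (x :: B)
      simp
    | cons a' A =>
      show W a a' ++ chw W ((a' :: A) ++ x :: B) = (W a a' ++ chw W ((a' :: A) ++ [x])) ++ _
      rw [ih, List.append_assoc]

lemma rep_cons (x : M) (l : List M) (m : ℕ) :
    ∃ T, (List.replicate m (x :: l)).flatten ++ [x] = x :: T := by
  cases m with
  | zero => exact ⟨[], rfl⟩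
  | succ m =>
    rw [List.replicate_succ, List.flatten_cons]
    exact ⟨_, rfl⟩

lemma chw_rep (W : M → M → List D) (x : M) (l : List M) (m : ℕ) :
    chw W ((List.replicate m (x :: l)).flatten ++ [x]) =
      (List.replicate m (chw W ((x :: l) ++ [x]))).flatten := by
  induction m with
  | zero => rfl
  | succ m ih =>
    rw [List.replicate_succ, List.flatten_cons, List.replicate_succ, List.flatten_cons, ← ih,
      List.append_assoc]
    obtain ⟨T, hT⟩ := rep_cons x l m
    rw [hT, chw_append]

lemma cword_rep (W : M → M → List D) (v : List M) (hv : v ≠ []) (m : ℕ) (hm : 1 ≤ m) :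
    cword W ((List.replicate m v).flatten) = (List.replicate m (cword W v)).flatten := by
  obtain ⟨x, l, rfl⟩ := List.exists_cons_of_ne_nil hv
  have h := chw_rep W x l m
  obtain ⟨m, rfl⟩ : ∃ k, m = k + 1 := ⟨m - 1, by omega⟩
  have e : (List.replicate (m + 1) (x :: l)).flatten =
      x :: (l ++ (List.replicate m (x :: l)).flatten) := by
    rw [List.replicate_succ, List.flatten_cons]
    rfl
  rw [e] at h ⊢
  exact h

lemma chl_rep (x : M) (l : List M) (m : ℕ) :
    chl ((List.replicate m (x :: l)).flatten ++ [x]) = m * chl ((x :: l) ++ [x]) := by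
  induction m with
  | zero =>
    show chl [x] = _
    simp [chl]
  | succ m ih =>
    rw [List.replicate_succ, List.flatten_cons, List.append_assoc]
    obtain ⟨T, hT⟩ := rep_cons x l m
    rw [hT, chl_append, ← hT, ih]
    push_cast
    ring

/-- the polygon of a power is good only if the polygon is -/
lemma good_of_rep {r ℓ : ℝ} {S : Set M} (v : List M) (hv : v ≠ []) (m : ℕ) (hm : 1 ≤ m)
    (h : Good r ℓ S ((List.replicate m v).flatten)) : Good r ℓ S v := by
  obtain ⟨x, l, rfl⟩ := List.exists_cons_of_ne_nil hv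
  have hl := chl_rep x l m
  obtain ⟨m, rfl⟩ : ∃ k, m = k + 1 := ⟨m - 1, by omega⟩
  have e : (List.replicate (m + 1) (x :: l)).flatten =
      x :: (l ++ (List.replicate m (x :: l)).flatten) := by
    rw [List.replicate_succ, List.flatten_cons]
    rfl
  rw [e] at h hl
  obtain ⟨h1, h2, h3⟩ := h
  obtain ⟨T, hT⟩ := rep_cons x l m
  have e2 : x :: ((l ++ (List.replicate m (x :: l)).flatten) ++ [x]) = (x :: l) ++ x :: T := by
    rw [← hT]
    simp
  refine ⟨?_, ?_, ?_⟩
  · rw [e2, List.isChain_split] at h1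
    exact h1.1
  · have h4 : chl (x :: ((l ++ (List.replicate m (x :: l)).flatten) ++ [x])) < ℓ := h2
    rw [e2, chl_append] at h4
    have h5 := chl_nonneg (x :: T)
    show chl ((x :: l) ++ [x]) < ℓ
    linarith
  · intro y hy
    apply h3
    have : x :: (l ++ (List.replicate m (x :: l)).flatten) =
      (x :: l) ++ (List.replicate m (x :: l)).flatten := rfl
    rw [this]
    exact List.mem_append_left _ hy

variable {Λ : Type u} [LinearOrder Λ] (G : Rib D M Λ)

/-- the block decomposition of the lifted word -/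
lemma bw_of {K : Set M} {a b ρ r : ℝ} (V : M → M) (W : M → M → List D) (hab : ρ ≤ a / 2)
    (har : a ≤ r)
    (hV : ∀ x ∈ K, dist x (V x) ≤ ρ)
    (hW : ∀ x ∈ K, ∀ y ∈ K, dist x y ≤ b → Walk G (V x) (V y) (W x y) ∧
        ∀ e ∈ W x y, dist x (G.tl e) < a / 2 ∧ dist x (G.hd e) < a / 2) (y : M) (hy : y ∈ K) :
    ∀ (l : List M) (x : M), (∀ z ∈ x :: l, z ∈ K) →
      List.IsChain (fun a a' => dist a a' ≤ b) (x :: (l ++ [y])) →
      BW G r (V x) (V y) (chw W (x :: (l ++ [y]))) ((x :: l).map V) := by
  have small : ∀ x ∈ K, ∀ y ∈ K, dist x y ≤ b → SmallW G r (V x) (W x y) := by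
    intro x hx y hy hxy
    obtain ⟨_, h2⟩ := hW x hx y hy hxy
    have key : ∀ c ∈ V x :: (W x y).map G.hd, dist x c ≤ a / 2 := by
      intro c hc
      rw [List.mem_cons] at hc
      rcases hc with rfl | hc
      · exact (hV x hx).trans hab
      · obtain ⟨e, he, rfl⟩ := List.mem_map.1 hc
        exact (h2 e he).2.le
    intro c hc c' hc'
    have h3 := key c hc
    have h4 := key c' hc'
    have h5 := dist_triangle_left c c' x
    linarith
  intro l
  induction l with
  | nil =>
    intro x hx hc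
    have hc' : List.IsChain (fun a a' => dist a a' ≤ b) [x, y] := hc
    rw [List.isChain_cons_cons] at hc'
    have hxK := hx x List.mem_cons_self
    show BW G r (V x) (V y) (W x y ++ []) (V x :: [])
    exact BW.cons _ _ _ _ _ _ (hW x hxK y hy hc'.1).1 (small x hxK y hy hc'.1) (BW.nil _)
  | cons z l ih =>
    intro x hx hc
    have hc' : List.IsChain (fun a a' => dist a a' ≤ b) (x :: z :: (l ++ [y])) := hc
    rw [List.isChain_cons_cons] at hc'
    have hxK := hx x List.mem_cons_self
    have hzK := hx z (List.mem_cons_of_mem _ List.mem_cons_self)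
    have h1 := ih z (fun w hw => hx w (List.mem_cons_of_mem _ hw)) hc'.2
    show BW G r (V x) (V y) (W x z ++ chw W (z :: (l ++ [y]))) (V x :: (z :: l).map V)
    exact BW.cons _ _ _ _ _ _ (hW x hxK z hzK hc'.1).1 (small x hxK z hzK hc'.1) h1

/-- if the lifted word is empty, then `V` is constant on the polygon -/
lemma const_of_nil {K : Set M} {b : ℝ} (V : M → M) (W : M → M → List D)
    (hW : ∀ x ∈ K, ∀ y ∈ K, dist x y ≤ b → Walk G (V x) (V y) (W x y)) (y : M) (hy : y ∈ K) :
    ∀ (l : List M) (x : M), (∀ z ∈ x :: l, z ∈ K) →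
      List.IsChain (fun a a' => dist a a' ≤ b) (x :: (l ++ [y])) →
      chw W (x :: (l ++ [y])) = [] → ∀ z ∈ x :: l, V z = V y := by
  intro l
  induction l with
  | nil =>
    intro x hx hc h z hz
    have hc' : List.IsChain (fun a a' => dist a a' ≤ b) [x, y] := hc
    rw [List.isChain_cons_cons] at hc'
    have hxK := hx x List.mem_cons_self
    have h' : W x y ++ [] = [] := h
    rw [List.append_nil] at h'
    have h1 := hW x hxK y hy hc'.1
    rw [h'] at h1
    rw [List.mem_singleton] at hz
    rw [hz]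
    exact h1
  | cons w l ih =>
    intro x hx hc h z hz
    have hc' : List.IsChain (fun a a' => dist a a' ≤ b) (x :: w :: (l ++ [y])) := hc
    rw [List.isChain_cons_cons] at hc'
    have hxK := hx x List.mem_cons_self
    have hwK := hx w (List.mem_cons_of_mem _ List.mem_cons_self)
    have h' : W x w ++ chw W (w :: (l ++ [y])) = [] := h
    rw [List.append_eq_nil_iff] at h'
    have h1 := ih w (fun w' hw => hx w' (List.mem_cons_of_mem _ hw)) hc'.2 h'.2
    have h2 := hW x hxK w hwK hc'.1
    rw [h'.1] at h2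
    have h3 : V x = V w := h2
    rw [List.mem_cons] at hz
    rcases hz with rfl | hz
    · rw [h3]
      exact h1 w List.mem_cons_self
    · exact h1 z hz

end Words

end H113B1

open H113B1

theorem levelB
    (hlift : ∀ {M : Type u} [MetricSpace M] {D Λ : Type u} [LinearOrder Λ] [Inhabited D]
      (G : Rib D M Λ) (Fc : Set (List D)) (K K' : Set M) (r a b ρ : ℝ)
      (_ : FCell G K K' r a b ρ Fc) (_ : 0 < a) (_ : 0 < b) (_ : a ≤ r) (_ : b ≤ a / 2)
      (_ : 0 < ρ) (_ : ρ < b / 2) (n N : ℕ) (L0 L1 : ℝ)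
      (_ : L0 + 2 * n * ρ ≤ L1 - N * (4 * (2 * r))),
      ∃ (V : M → M) (W : M → M → List D), (∀ x ∈ K, V x ∈ K' ∧ dist x (V x) ≤ ρ) ∧
      (∀ x ∈ K, ∀ y ∈ K, dist x y ≤ b / 2 → Walk G (V x) (V y) (W x y) ∧
        ∀ e ∈ W x y, dist x (G.tl e) < a / 2 ∧ dist x (G.hd e) < a / 2) ∧
      ∀ P P', PStepN n (b / 2) L0 K P P' →
        Relation.ReflTransGen (Step G Fc (Rl G (2 * r) L1) N) (cword W P) (cword W P'))
    (hdesc : ∀ {M : Type u} [MetricSpace M] {D Λ : Type u} [LinearOrder Λ] [Inhabited D]
      (G : Rib D M Λ) (Fc : Set (List D)) (K' : Set M) (r ℓ : ℝ) (_ : 0 < r)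
      (_ : ∀ d, dist (G.tl d) (G.hd d) ≤ r) (_ : ∀ f ∈ Fc, CW G f)
      (_ : ∀ f ∈ Fc, ∀ c ∈ f, ∀ c' ∈ f, dist (G.tl c) (G.tl c') ≤ r)
      (_ : ∀ d, G.tl d ∈ K') (w z : List D) (x : M) (_ : x ∈ K') (P : List M) (_ : P ≠ [])
      (_ : BW G r x x w P) (_ : chl (P ++ [x]) < ℓ)
      (_ : Relation.ReflTransGen (Step G Fc (Rl G r ℓ) 0) w z)
      (_ : ∀ c ∈ z, ∀ c' ∈ z, dist (G.tl c) (G.tl c') ≤ r),
      PContr r (ℓ + 20 * r) K' P)
    (p : ℕ) [Fact p.Prime]
    (hdisc : ∀ {M : Type u} [MetricSpace M] [Nonempty M] {D Λ : Type u} [LinearOrder Λ]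
      [Inhabited D] (G : Rib D M Λ) (Fc : Set (List D)) (r ℓ : ℝ) (_ : 0 ≤ r)
      (_ : ∀ d, dist (G.tl d) (G.hd d) ≤ r) (_ : ∀ f ∈ Fc, IsFace G f)
      (_ : ∀ f ∈ Fc, ∀ c ∈ f, ∀ c' ∈ f, dist (G.tl c) (G.tl c') ≤ r)
      (Sm : List D → Prop) (_ : ∀ w w', Sm w → (∀ a ∈ w', a ∈ w) → Sm w')
      (_ : ∀ a w, (∀ b ∈ w, b = a ∨ b = G.inv a) → Sm w)
      (_ : ∀ f ∈ Fc, ∀ w, (∀ b ∈ w, ∃ c ∈ f, b = c ∨ b = G.inv c) → Sm w)
      (v z : List D) (_ : v ≠ []) (_ : Rl G r ℓ 0 v) (_ : Sm z)
      (_ : Relation.ReflTransGen (Step G Fc (Rl G r ℓ) (4 * p + 8))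
        (List.replicate p v).flatten z),
      ∃ z', Sm z' ∧ Relation.ReflTransGen (Step G Fc (Rl G r ℓ) 0) v z')
    {M : Type u} [MetricSpace M] (hM : FineCell M)
    (K : Set M) (hK : IsCompact K) (hKn : K.Nonempty) (L0 L1 : ℝ) (h01 : L0 < L1) :
    ∃ K', IsCompact K' ∧ ∀ s > 0, ∃ b > 0, ∀ v : List M,
      PContr b L0 K (List.replicate p v).flatten → PContr s L1 K' v := by
  have hp : 2 ≤ p := (Fact.out : p.Prime).two_le
  obtain ⟨K0, hK0, hcell⟩ := hM K hK hKn
  refine ⟨K0 ∪ K, hK0.union hK, ?_⟩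
  intro s hs
  obtain ⟨ε, hε⟩ : ∃ ε, ε = L1 - L0 := ⟨_, rfl⟩
  have hε0 : 0 < ε := by linarith
  obtain ⟨N, hN⟩ : ∃ N : ℕ, N = 4 * p + 8 := ⟨_, rfl⟩
  obtain ⟨r, hr⟩ : ∃ r, r = min (s / 2) (ε / (16 * ((N : ℝ) + 5))) := ⟨_, rfl⟩
  have hNN : (0:ℝ) < 16 * ((N : ℝ) + 5) := by positivity
  have hr0 : 0 < r := by
    rw [hr]
    exact lt_min (by positivity) (by positivity)
  have hrs : r ≤ s / 2 := by rw [hr]; exact min_le_left _ _
  have hrε : r * (16 * ((N : ℝ) + 5)) ≤ ε := by
    have : r ≤ ε / (16 * ((N : ℝ) + 5)) := by rw [hr]; exact min_le_right _ _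
    rwa [le_div_iff₀ hNN] at this
  obtain ⟨a, ha0, b, hb0, har, hba, hfine⟩ := hcell r hr0
  refine ⟨b / 2, by positivity, ?_⟩
  intro v hv
  obtain ⟨x1, hchain⟩ := hv
  -- v is nonempty and its power is good
  have hne : (List.replicate p v).flatten ≠ [x1] := by
    intro h
    have h1 : (List.replicate p v).flatten.length = 1 := by rw [h]; rfl
    rw [List.length_flatten, List.map_replicate, List.sum_replicate, smul_eq_mul] at h1
    have h2 := Nat.eq_one_of_mul_eq_one_right h1
    omega
  have hgoodp : Good (b / 2) L0 K (List.replicate p v).flatten := by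
    rcases Relation.ReflTransGen.cases_head hchain with h | ⟨c, h, _⟩
    · exact absurd h hne
    · exact h.1
  have hgood1 : Good (b / 2) L0 K [x1] := by
    rcases Relation.ReflTransGen.cases_tail hchain with h | ⟨c, _, h⟩
    · exact absurd h.symm hne
    · exact h.2.1
  have hx1 : x1 ∈ K := hgood1.2.2 x1 List.mem_cons_self
  have hv0 : v ≠ [] := by
    rintro rfl
    rw [List.flatten_replicate_nil] at hgoodp
    exact hgoodp
  have hgoodv := good_of_rep v hv0 p (by omega) hgoodp
  obtain ⟨n, hn, hchainN⟩ := exists_bound hchain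
  have hvn : v.length ≤ n := by
    have h1 : (List.replicate p v).flatten.length = p * v.length := by
      rw [List.length_flatten, List.map_replicate, List.sum_replicate, smul_eq_mul]
    have h2 : 1 * v.length ≤ p * v.length := Nat.mul_le_mul_right _ (by omega)
    omega
  -- the mesh
  obtain ⟨ρ, hρ⟩ : ∃ ρ, ρ = min (b / 4) (ε / (8 * ((n : ℝ) + 1))) := ⟨_, rfl⟩
  have hnn : (0:ℝ) < 8 * ((n : ℝ) + 1) := by positivity
  have hρ0 : 0 < ρ := by
    rw [hρ]
    exact lt_min (by positivity) (by positivity)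
  have hρb : ρ ≤ b / 4 := by rw [hρ]; exact min_le_left _ _
  have hρε : ρ * (8 * ((n : ℝ) + 1)) ≤ ε := by
    have : ρ ≤ ε / (8 * ((n : ℝ) + 1)) := by rw [hρ]; exact min_le_right _ _
    rwa [le_div_iff₀ hnn] at this
  obtain ⟨D, Λ, iΛ, iD, G, Fc, hF⟩ := hfine ρ hρ0
  obtain ⟨ℓ, hℓ⟩ : ∃ ℓ, ℓ = L0 + N * (4 * (2 * r)) + ε / 4 := ⟨_, rfl⟩
  have hn2 : 2 * (n : ℝ) * ρ ≤ ε / 4 := by nlinarith
  obtain ⟨V, W, hV, hW, hstep⟩ := hlift G Fc K K0 r a b ρ hF ha0 hb0 har hba hρ0 (by linarith)
    n N L0 ℓ (by rw [hℓ]; linarith)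
  have hmesh : ∀ d, dist (G.tl d) (G.hd d) ≤ 2 * r := fun d => (hF.mesh d).trans (by linarith)
  have hfm : ∀ f ∈ Fc, ∀ c ∈ f, ∀ c' ∈ f, dist (G.tl c) (G.tl c') ≤ 2 * r :=
    fun f hf c hc c' hc' => (hF.fmesh f hf c hc c' hc').trans (by linarith)
  have hwchain : Relation.ReflTransGen (Step G Fc (Rl G (2 * r) ℓ) N)
      (cword W (List.replicate p v).flatten) (cword W [x1]) := by
    have key : ∀ P Q : List M, Relation.ReflTransGen (PStepN n (b / 2) L0 K) P Q →
        Relation.ReflTransGen (Step G Fc (Rl G (2 * r) ℓ) N) (cword W P) (cword W Q) := by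
      intro P Q h
      induction h with
      | refl => exact Relation.ReflTransGen.refl
      | tail _ h ih => exact ih.trans (hstep _ _ h)
    exact key _ _ hchainN
  rw [cword_rep W v hv0 p (by omega), hN] at hwchain
  -- the polygon of the lifted vertices
  have hLpos : 0 < L0 := by
    obtain ⟨x, l, rfl⟩ := List.exists_cons_of_ne_nil hv0
    exact lt_of_le_of_lt (chl_nonneg _) hgoodv.2.1
  obtain ⟨x, l, hvx⟩ := List.exists_cons_of_ne_nil hv0
  have hgv : Good (b / 2) L0 K (x :: l) := hvx ▸ hgoodv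
  have hxK : x ∈ K := hgv.2.2 x List.mem_cons_self
  have hBW : BW G (2 * r) (V x) (V x) (cword W v) (v.map V) := by
    rw [hvx]
    exact bw_of G V W (by linarith) (by linarith) (fun y hy => (hV y hy).2) hW x hxK l x
      hgv.2.2 hgv.1
  have hclose : List.Forall₂ (fun a b => dist a b ≤ ρ) v (v.map V) := by
    have : ∀ v : List M, (∀ y ∈ v, y ∈ K) →
        List.Forall₂ (fun a b => dist a b ≤ ρ) v (v.map V) := by
      intro v
      induction v with
      | nil => intro _; exact List.Forall₂.nil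
      | cons y v ih =>
        intro h
        exact List.Forall₂.cons (hV y (h y List.mem_cons_self)).2
          (ih (fun z hz => h z (List.mem_cons_of_mem _ hz)))
    apply this
    rw [hvx]
    exact hgv.2.2
  have hgoodV := good_close (S' := K0) hρ0.le hgoodv hclose (by
    intro y hy
    obtain ⟨z, hz, rfl⟩ := List.mem_map.1 hy
    apply (hV z _).1
    rw [hvx] at hz
    exact hgv.2.2 z hz)
  have hlen : 2 * ρ * (v.length : ℝ) ≤ ε / 4 := by
    have h1 : (v.length : ℝ) ≤ n := by exact_mod_cast hvn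
    have h2 : 2 * ρ * (v.length : ℝ) ≤ 2 * ρ * n := mul_le_mul_of_nonneg_left h1 (by positivity)
    linarith
  have hNr : 0 ≤ (N : ℝ) * (4 * (2 * r)) := by positivity
  have hchl : chl (v.map V ++ [V x]) < ℓ := by
    rw [hvx] at hgoodV ⊢
    have h1 := hgoodV.2.1
    rw [hvx] at hlen
    have h2 : chl ((x :: l).map V ++ [V x]) < L0 + 2 * ρ * ((x :: l).length : ℝ) := h1
    rw [hℓ]
    linarith
  -- contraction of the lifted polygon
  have hcontr : PContr (2 * r) (ℓ + 20 * (2 * r)) K0 (v.map V) := by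
    by_cases hw : cword W v = []
    · have h1 := const_of_nil G V W (fun x hx y hy hxy => (hW x hx y hy hxy).1) x hxK l x
        hgv.2.2 hgv.1 (by rw [hvx] at hw; exact hw)
      have h2 : v.map V = V x :: List.replicate l.length (V x) := by
        rw [hvx, List.map_cons]
        congr 1
        rw [List.eq_replicate_iff]
        refine ⟨by simp, ?_⟩
        intro y hy
        obtain ⟨z, hz, rfl⟩ := List.mem_map.1 hy
        exact h1 z (List.mem_cons_of_mem _ hz)
      rw [h2]
      exact ⟨V x, contr_const (by positivity) (by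
        rw [hℓ]
        linarith) (hV x hxK).1 _⟩
    · obtain ⟨z', hz', hsteps⟩ := @hdisc M _ ⟨x⟩ D Λ iΛ iD G Fc (2 * r) ℓ (by positivity) hmesh
        hF.face hfm
        (fun w => ∀ c ∈ w, ∀ c' ∈ w, dist (G.tl c) (G.tl c') ≤ 2 * r)
        (fun w w' hw hsub c hc c' hc' => hw c (hsub c hc) c' (hsub c' hc'))
        (fun a w hw c hc c' hc' => by
          have hm := hF.mesh a
          have hm' : dist (G.tl a) (G.tl (G.inv a)) ≤ ρ := hm
          rcases hw c hc with rfl | rfl <;> rcases hw c' hc' with h | h <;> rw [h]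
          · rw [dist_self]; linarith
          · linarith
          · rw [dist_comm]; linarith
          · rw [dist_self]; linarith)
        (fun f hf w hw c hc c' hc' => by
          have key : ∀ c, (∃ d ∈ f, c = d ∨ c = G.inv d) → ∃ d ∈ f, dist (G.tl c) (G.tl d) ≤ ρ := by
            rintro c ⟨d, hd, rfl | rfl⟩
            · exact ⟨_, hd, by rw [dist_self]; exact hρ0.le⟩
            · refine ⟨d, hd, ?_⟩
              rw [dist_comm]
              exact hF.mesh d
          obtain ⟨d, hd, h1⟩ := key c (hw c hc)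
          obtain ⟨d', hd', h2⟩ := key c' (hw c' hc')
          have h3 := hF.fmesh f hf d hd d' hd'
          have h4 := dist_triangle4 (G.tl c) (G.tl d) (G.tl d') (G.tl c')
          rw [dist_comm (G.tl d') (G.tl c')] at h4
          linarith)
        (cword W v) (cword W [x1]) hw
        ⟨0, V x, v.map V, by rw [List.rotate_zero]; exact hBW, by
          rw [Nat.cast_zero, zero_mul, sub_zero]; exact hchl⟩
        (by
          have h1 := hW x1 hx1 x1 hx1 (by rw [dist_self]; positivity)
          intro c hc c' hc'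
          have e : cword W [x1] = W x1 x1 := by
            show W x1 x1 ++ [] = W x1 x1
            rw [List.append_nil]
          rw [e] at hc hc'
          have h2 := (h1.2 c hc).1
          have h3 := (h1.2 c' hc').1
          have h4 := dist_triangle_left (G.tl c) (G.tl c') x1
          linarith)
        hwchain
      exact hdesc G Fc K0 (2 * r) ℓ (by positivity) hmesh (fun f hf => (hF.face f hf).cw) hfm
        hF.inK' (cword W v) z' (V x) (hV x hxK).1 (v.map V) (by simpa using hv0) hBW hchl
        hsteps hz'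
  -- from v to the lifted polygon
  obtain ⟨c, hc⟩ := hcontr
  have hbound : ℓ + 20 * (2 * r) ≤ L1 := by
    rw [hℓ]
    nlinarith
  have h1 := e_map (β := b / 2) (ρ := ρ) (ℓ := L0) (r := s) (ℓ' := L1) (K := K) (S' := K0 ∪ K)
    (by positivity) hρ0.le (by linarith) V Set.subset_union_right
    (fun x hx => ⟨Or.inl (hV x hx).1, (hV x hx).2⟩) n (by nlinarith) v [] []
    (by rw [List.append_nil]; exact hgoodv) (by rw [List.append_nil]; exact hvn)
    List.Forall₂.nil
  rw [List.append_nil, List.append_nil] at h1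
  refine ⟨c, h1.trans (rtg_mono ?_ hc)⟩
  intro P Q h
  exact ⟨good_mono (by linarith) hbound Set.subset_union_left h.1,
    good_mono (by linarith) hbound Set.subset_union_left h.2.1, h.2.2⟩

end Pool.Agent.TH317.CC
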